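import Pool.Agent.helper40.SN.WireAll
import Pool.Agent.helper81.SN.Own

open scoped Pointwise
open MeasureTheory Set

namespace Pool.Agent.Results.MP_d2d7b9_gt.SchneiderSupport

open Pool.Agent.helper83.SC

/-- Schneider's conjecture (1985), in every dimension `m + 1 ≥ 2` and for all convex bodies: the
support of the mixed area measure of `C_1, …, C_m` is the closure of the set of the
`(C_1, …, C_m)`-extreme directions. -/
theorem result {m : ℕ} (hm : 1 ≤ m) (C : Fin m → Set (E (m + 1))) (hC : ∀ i, IsBody (C i))
    (S : Measure (E (m + 1))) (hS : IsMixedArea C S) :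
    {u | ∀ U : Set (E (m + 1)), IsOpen U → u ∈ U → 0 < S U} = closure (extremeDirections C) :=
  Pool.Agent.helper81.SN.support_of_core
    (fun _ hm F hF r hr hB => Pool.Agent.helper40.SN.W.w_dCOR F hm hF r hr hB) hm C hC S hS

end Pool.Agent.Results.MP_d2d7b9_gt.SchneiderSupport
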